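import Pool.Agent.H.MP_0427c5_lc.fm.Thm
import Pool.Agent.H.MP_0427c5_lc.Sums

/-!
# 3SUM-Indexing in the generic ring model with random hash functions

Let `A` be any finite set of integers and `B` the set of the sums `a + b` modulo the prime `p`. Let
`h s`, `s < M`, be functions of the integers modulo `p` to a finite set `W` which take every value at
least `|B|` times outside of `B`. For all but at most `1/512` of the families `f` which agree with `h`
outside of `B` the following is true: every generic data structure with `S` bits of memory and `T`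
oracle calls per query, additions and multiplications of labelled elements, in whose runs the formal
degrees are at most `d`, which moreover sees the value of one of the functions `f s` at the query in
clear, and which decides membership in `B` with advantage `γ`, satisfies
`γ² |B| ≤ 80 (S + 1 + |W| + ⌈log₂ M⌉) ⌈log₂ p⌉ (T + 1)² d`.

Without multiplications all formal degrees are at most `1`.
-/

set_option autoImplicit false

namespace Pool.Agent.Results.MP_0427c5_lc.LowDegreeHash

open GFM Finset
open GGM3 (sums)
open scoped Classical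

theorem card_any {α : Type*} {n : ℕ} (s t : Finset α) (q r : α → Prop) {i : DecidablePred q}
    {j : DecidablePred r} (hst : s = t) (hqr : ∀ x, q x ↔ r x)
    (h : n ≤ (@Finset.filter α q i s).card) : n ≤ (@Finset.filter α r j t).card := by
  subst hst
  refine le_trans h (Finset.card_le_card fun x hx => ?_)
  rw [Finset.mem_filter] at hx ⊢
  exact ⟨hx.1, (hqr x).mp hx.2⟩

theorem filter_any {α : Type*} (s t : Finset α) (q r : α → Prop) {i : DecidablePred q}
    {j : DecidablePred r} (hst : s = t) (hqr : ∀ x, q x ↔ r x) :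
    (@Finset.filter α q i s) = (@Finset.filter α r j t) := by
  subst hst
  ext x
  rw [Finset.mem_filter, Finset.mem_filter]
  rw [hqr x]

theorem univ_any {α : Type*} (i j : Fintype α) : (@Finset.univ α i) = (@Finset.univ α j) := by
  rw [Subsingleton.elim i j]

theorem result (p : ℕ) [Fact p.Prime] (A : Finset ℕ) (W : Type) [Fintype W] [DecidableEq W]
    (M : ℕ) (h : Fin M → ZMod p → W)
    (hlarge : ∀ s w, (sums p A).card ≤ (univ.filter fun x => x ∉ sums p A ∧ h s x = w).card) :
    512 * ((univ.filter fun f : Fin M → ZMod p → W => ∀ s x, x ∉ sums p A → f s x = h s x).filter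
      fun f => ¬ ∀ (S T d : ℕ) (Ω : Type) [Fintype Ω] [Nonempty Ω]
        (D : HashStructure (ZMod p) W M S Ω) (γ : ℝ), 0 < γ → DegreeAtMost f D T d →
        avgErr f D T (sums p A) ≤ 1 / 2 - γ →
        γ ^ 2 * (sums p A).card ≤
          80 * (S + 1 + Fintype.card W + Nat.clog 2 M) * Nat.clog 2 p * (T + 1) ^ 2 * d).card ≤
      (univ.filter fun f : Fin M → ZMod p → W => ∀ s x, x ∉ sums p A → f s x = h s x).card := by
  have h1 := rh_result (K := ZMod p) (W := W) (sums p A) h
    (fun s w => card_any _ _ _ _ rfl (fun _ => Iff.rfl) (hlarge s w))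
    (fun f => ∀ (S T d : ℕ) (Ω : Type) [Fintype Ω] [Nonempty Ω]
        (D : HashStructure (ZMod p) W M S Ω) (γ : ℝ), 0 < γ → DegreeAtMost f D T d →
        avgErr f D T (sums p A) ≤ 1 / 2 - γ →
        γ ^ 2 * (sums p A).card ≤
          80 * (S + 1 + Fintype.card W + Nat.clog 2 M) * Nat.clog 2 p * (T + 1) ^ 2 * d)
    (fun f hf1 hf2 S T d Ω _ _ D γ hγ hD herr => by
      rw [ZMod.card] at hf2
      have hp : 1 ≤ Nat.clog 2 p := Nat.clog_pos (by norm_num) (Fact.out : p.Prime).two_le
      have hd1 : 1 ≤ d := one_le_deg hD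
      exact rh_core_runs (sums p A) f hf1 (Nat.clog 2 p) (Nat.clog 2 M) d hp hd1
        (fun i hm => hf2 i ⟨d, hd1, hm⟩) D hD γ hγ herr)
  unfold fams at h1
  have e1 : ∀ X Y X' Y' : Finset (Fin M → ZMod p → W), X = X' → Y = Y' →
      512 * X.card ≤ Y.card → 512 * X'.card ≤ Y'.card := by
    rintro X Y X' Y' rfl rfl hh
    exact hh
  refine e1 _ _ _ _ ?_ ?_ h1
  · exact filter_any _ _ _ _ (filter_any _ _ _ _ (univ_any _ _) (fun _ => Iff.rfl)) (fun _ => Iff.rfl)
  · exact filter_any _ _ _ _ (univ_any _ _) (fun _ => Iff.rfl)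

end Pool.Agent.Results.MP_0427c5_lc.LowDegreeHash
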