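import Pool.Agent.H.MP_0427c5_lc.PS.Seqs

/-!
# 3SUM-Indexing: structures whose cells are not shared need almost `n ^ 2` cells

Cell-probe model with adaptive probes, guesses and free computation. The memory for a set `A` of `n` numbers
below `2 N` consists of `S` cells with `W` possible values each and a header from `H` which is read for
free, all arbitrary functions of `A` and of the public coins `ω`; a query makes at most `T` probes. Suppose
that no query `x + y` with `x, y ∈ A` is answered no, that on average over the coins at least the fraction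
`1 / R` of the queries in `[N, 2 N)` is answered no for some guess, and that every cell is the last cell of
at most `q` of the probe sequences that end with no. If `|Ω| |H| (S W + 1) ^ T ≤ 2 ^ l`,
`256 (l + 1) ≤ n` and `4 n ≤ N` then `n ^ 2 ≤ 256 R (l + 1) (S q + 1)`.
-/

set_option autoImplicit false

namespace Pool.Agent.Results.MP_0427c5_lc.ProbeSeq

open Pool.Agent.H.MP_0427c5_lc.PS

theorem result {Ω G H : Type} [Fintype Ω] [Nonempty Ω] [Fintype G] [Fintype H]
    (S W T n N l R q : ℕ) (D : Ω → CellProbe G H S W)
    (hl : Fintype.card Ω * (Fintype.card H * (S * W + 1) ^ T) ≤ 2 ^ l)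
    (hn : 256 * (l + 1) ≤ n) (hN : 4 * n ≤ N)
    (hyes : ∀ ω, ∀ A ⊆ Finset.range (2 * N), A.card = n → ∀ x ∈ A, ∀ y ∈ A,
      ∀ g, ((D ω).trace T A (x + y) g).2 ≠ some false)
    (hno : ∀ A ⊆ Finset.range (2 * N), A.card = n →
      Fintype.card Ω * N ≤ R * ∑ ω, ((D ω).noSet T N A).card)
    (hq : ∀ ω, ∀ A ⊆ Finset.range (2 * N), A.card = n → ∀ c : Fin S,
      (((D ω).noSeqs T N A).filter (fun s => s.head? = some c)).card ≤ q) :
    n ^ 2 ≤ 256 * R * (l + 1) * (S * q + 1) :=
  shared_cells D n N T l R q hl hn hN hyes hno hq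

end Pool.Agent.Results.MP_0427c5_lc.ProbeSeq
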