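import Pool.Agent.H.MP_0427c5_lc.wh.Thm

/-!
# 3SUM-Indexing in the generic group model with hashing, hash values in a large range

Let `h s`, `s < M`, be functions of the integers modulo `p` to a finite set `W`, and
`Λ = log₂ (n M (|W| + 1)) + 4`. There is a set `A` of `n` integers below `p/2` such that every generic
data structure with `S` bits of memory and `T` oracle calls per query, which moreover sees the value of
one of the functions `h s` at the query in clear, and which decides membership in the set of sums with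
advantage `γ`, satisfies `γ⁴ n⁵ ≤ 2 · 10⁷ (S + 1) (T + 1)² (γ² n³ + 10⁵ Λ² (T + 1)² (n + |W|)²)`, as soon
as `10⁵ Λ (T + 1) (n + |W|) ≤ γ n²` and `25 (T + 1)² |W| ≤ γ n²`.

So if `T` is polylogarithmic, then `S` is at least `n²` up to such factors as long as `|W| ≤ n^{3/2}`,
and at least `n^{1 + 2 ε}` for `|W| = n^{2 - ε}`.
-/

namespace Pool.Agent.Results.MP_0427c5_lc.WideHash

open GGM3

theorem result (n p M : ℕ) [Fact p.Prime] (hn : 1 ≤ n) (hp : 16 * n ^ 12 ≤ p) (W : Type)
    [Fintype W] [DecidableEq W] (h : Fin M → ZMod p → W) :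
    ∃ A : Finset ℕ, A.card = n ∧ (∀ a ∈ A, 2 * a < p) ∧
      ∀ (S T : ℕ) (Ω : Type) [Fintype Ω] [Nonempty Ω] (D : HashStructure (ZMod p) W M S Ω) (γ : ℝ),
        0 < γ → avgErr h D T (sums p A) ≤ 1 / 2 - γ →
        10 ^ 5 * ((Nat.log 2 (n * M * (Fintype.card W + 1)) + 4 : ℕ) : ℝ) * (T + 1) *
          (n + Fintype.card W) ≤ γ * n ^ 2 →
        25 * ((T : ℝ) + 1) ^ 2 * Fintype.card W ≤ γ * n ^ 2 →
        γ ^ 4 * n ^ 5 ≤ 2 * 10 ^ 7 * (S + 1) * (T + 1) ^ 2 * (γ ^ 2 * n ^ 3 +
          10 ^ 5 * ((Nat.log 2 (n * M * (Fintype.card W + 1)) + 4 : ℕ) : ℝ) ^ 2 * (T + 1) ^ 2 *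
            (n + Fintype.card W) ^ 2) :=
  wide_result n p M hn hp W h

end Pool.Agent.Results.MP_0427c5_lc.WideHash
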