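import Pool.Agent.H.MP_0427c5_lc.PS.YD

/-!
# 3SUM-Indexing: yes-answers need almost `n ^ 2` cells or shared cells

Cell-probe model with adaptive probes, guesses and free computation. Let `P` be a Sidon set of at least
`2 ^ j n` numbers. The memory for a set `A ⊆ P` of `n` numbers consists of `S` cells with `W` possible
values each and a header from `H` which is read for free, all arbitrary functions of `A` and of the public
coins `ω`; a query makes at most `T` probes. Suppose that no `z` in `P + P` outside of `A + A` is answered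
yes, that on average over the coins at least `n ^ 2 / R` queries in `P + P` are answered yes for some guess,
and that every cell is the last cell of at most `q` of the probe sequences that end with yes. If
`|Ω| |H| (S W + 1) ^ T < 2 ^ (j (k + 1))` then `2 n ^ 2 ≤ R k (k + 1) (S q + 1)`.
-/

set_option autoImplicit false

namespace Pool.Agent.Results.MP_0427c5_lc.YesSeq

open Pool.Agent.H.MP_0427c5_lc.PS

theorem result {Ω G H : Type} [Fintype Ω] [Nonempty Ω] [Fintype G] [Fintype H]
    (S W T n j k R q : ℕ) (P : Finset ℕ) (hP : Sidon P) (hn : 2 ^ j * n ≤ P.card)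
    (D : Ω → CellProbe G H S W)
    (hk : Fintype.card Ω * (Fintype.card H * (S * W + 1) ^ T) < 2 ^ (j * (k + 1)))
    (hno : ∀ ω, ∀ A ⊆ P, A.card = n → ∀ z ∈ sums P, z ∉ sums A →
      ∀ g, ((D ω).trace T A z g).2 ≠ some true)
    (hyes : ∀ A ⊆ P, A.card = n →
      Fintype.card Ω * n ^ 2 ≤ R * ∑ ω, ((D ω).yesSet T (sums P) A).card)
    (hq : ∀ ω, ∀ A ⊆ P, A.card = n → ∀ c : Fin S,
      (((D ω).yesSeqs T (sums P) A).filter (fun s => s.head? = some c)).card ≤ q) :
    2 * n ^ 2 ≤ R * (k * (k + 1)) * (S * q + 1) :=
  shared_cells_yes D n T j k R q P hP hn hk hno hyes hq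

end Pool.Agent.Results.MP_0427c5_lc.YesSeq
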